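import Mathlib

/-!
The recurrence quotient `R(n)/n` of an aperiodic uniformly recurrent word does not converge.
-/

set_option autoImplicit false

namespace Pool.Agent.H606R3.MH

/-- the factor of length `n` at `i` also occurs at `q` -/
def Occ (x : ℕ → ℕ) (n i q : ℕ) : Prop := ∀ j < n, x (q + j) = x (i + j)

/-- every factor of length `n` occurs at one of the positions `p, ..., p + t` -/
def G (x : ℕ → ℕ) (n t : ℕ) : Prop := ∀ p i : ℕ, ∃ q : ℕ, p ≤ q ∧ q ≤ p + t ∧ Occ x n i q

/-- least `t` with `G x n t` -/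
noncomputable def T (x : ℕ → ℕ) (n : ℕ) : ℕ := sInf {t | G x n t}

variable {x : ℕ → ℕ}

theorem T_spec (H : ∀ n, ∃ t, G x n t) (n : ℕ) : G x n (T x n) := Nat.sInf_mem (H n)

theorem T_min {n t : ℕ} (h : t < T x n) : ¬ G x n t := Nat.notMem_of_lt_sInf h

theorem T_le {n t : ℕ} (h : G x n t) : T x n ≤ t := Nat.sInf_le h

theorem T_succ (H : ∀ n, ∃ t, G x n t) (n : ℕ) : T x n ≤ T x (n + 1) := by
  apply T_le
  intro p i
  obtain ⟨q, h1, h2, h3⟩ := T_spec H (n + 1) p i
  exact ⟨q, h1, h2, fun j hj => h3 j (by omega)⟩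

theorem T_mono (H : ∀ n, ∃ t, G x n t) : Monotone (T x) := monotone_nat_of_le_succ (T_succ H)

/-- a jump of `T` produces a special pair -/
theorem jump (H : ∀ n, ∃ t, G x n t) {n : ℕ} (h : T x n < T x (n + 1)) :
    ∃ i, (∃ k, Occ x n i k ∧ x (k + n) ≠ x (i + n)) ∧
      (∃ k, Occ x n (i + 1) (k + 1) ∧ x k ≠ x i) := by
  have h1 := T_min (x := x) (n := n + 1) (t := T x (n + 1) - 1) (by omega)
  unfold G at h1
  push Not at h1
  obtain ⟨p, i, hpi⟩ := h1
  refine ⟨i, ?_, ?_⟩
  · obtain ⟨q, h2, h3, h4⟩ := T_spec H n p i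
    refine ⟨q, h4, fun h5 => hpi q h2 (by omega) ?_⟩
    intro j hj
    rcases Nat.lt_succ_iff_lt_or_eq.1 hj with h6 | h6
    · exact h4 j h6
    · rw [h6]; exact h5
  · obtain ⟨q, h2, h3, h4⟩ := T_spec H n (p + 1) (i + 1)
    obtain ⟨k, rfl⟩ : ∃ k, q = k + 1 := ⟨q - 1, by omega⟩
    refine ⟨k, h4, fun h5 => hpi k (by omega) (by omega) ?_⟩
    intro j hj
    rcases Nat.eq_zero_or_pos j with h6 | h6
    · rw [h6]; exact h5
    · obtain ⟨l, rfl⟩ : ∃ l, j = l + 1 := ⟨j - 1, by omega⟩
      have := h4 l (by omega)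
      rw [show k + (l + 1) = k + 1 + l by ring, show i + (l + 1) = i + 1 + l by ring]
      exact this

/-- a window with period `d` which is long compared with the recurrence of `d + 1` forces global
periodicity -/
theorem periodic (H : ∀ n, ∃ t, G x n t) {a l d : ℕ}
    (hper : ∀ s, s + d < l → x (a + s) = x (a + s + d)) (hl : d + 1 + T x (d + 1) ≤ l) :
    ∀ i, x (i + d) = x i := by
  intro i
  obtain ⟨q, h1, h2, h3⟩ := T_spec H (d + 1) a i
  obtain ⟨s, rfl⟩ : ∃ s, q = a + s := ⟨q - a, by omega⟩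
  have h4 := h3 0 (by omega)
  have h5 := h3 d (by omega)
  have h6 := hper s (by omega)
  rw [← h5, ← h6]
  simpa using h4

/-- lower bound for `T` -/
theorem T_lower (H : ∀ n, ∃ t, G x n t) (hap : ¬ ∃ P N : ℕ, 0 < P ∧ ∀ i ≥ N, x (i + P) = x i)
    {L : ℕ} (hL : ∀ n, 1 ≤ n → n + T x n ≤ L * n) (n : ℕ) : n < L * (T x n + 2) := by
  by_contra hcon
  push Not at hcon
  obtain ⟨q, h1, h2, h3⟩ := T_spec H n 1 0
  apply hap
  refine ⟨q, 0, by omega, fun i _ => ?_⟩
  refine periodic H (a := 0) (l := n + q) (d := q) ?_ ?_ i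
  · intro s hs
    have := h3 s (by omega)
    rw [zero_add] at this ⊢
    rw [← this, add_comm]
  · have h4 := hL (q + 1) (by omega)
    have h5 : L * (q + 1) ≤ L * (T x n + 2) := Nat.mul_le_mul_left _ (by omega)
    omega

/-- the factor of length `n` at `i` -/
def word (x : ℕ → ℕ) (n i : ℕ) : Fin n → ℕ := fun j => x (i + j)

theorem word_eq {n i q : ℕ} (h : Occ x n i q) : word x n q = word x n i := by
  funext j
  exact h j j.2

theorem word_eq' {n i q : ℕ} (h : word x n q = word x n i) : Occ x n i q := by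
  intro j hj
  have := congrFun h ⟨j, hj⟩
  exact this

open Classical in
/-- the factors of length `n` -/
noncomputable def F (x : ℕ → ℕ) (n : ℕ) : Finset (Fin n → ℕ) :=
  (Finset.range (T x n + 1)).image (word x n)

theorem mem_F (H : ∀ n, ∃ t, G x n t) (n i : ℕ) : word x n i ∈ F x n := by
  classical
  obtain ⟨q, h1, h2, h3⟩ := T_spec H n 0 i
  unfold F
  rw [Finset.mem_image]
  exact ⟨q, Finset.mem_range.2 (by omega), word_eq h3⟩

theorem exists_of_mem_F {n : ℕ} {w : Fin n → ℕ} (h : w ∈ F x n) : ∃ i, word x n i = w := by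
  classical
  unfold F at h
  rw [Finset.mem_image] at h
  obtain ⟨i, _, hi⟩ := h
  exact ⟨i, hi⟩

theorem card_F (n : ℕ) : (F x n).card ≤ T x n + 1 := by
  classical
  unfold F
  refine Finset.card_image_le.trans ?_
  rw [Finset.card_range]

theorem card_add_le {α β : Type*} [DecidableEq β] (A : Finset α) (B S : Finset β) (f : α → β)
    (hS : S ⊆ B) (hsurj : ∀ b ∈ B, ∃ a ∈ A, f a = b)
    (h2 : ∀ b ∈ S, ∃ a ∈ A, ∃ a' ∈ A, a ≠ a' ∧ f a = b ∧ f a' = b) :
    B.card + S.card ≤ A.card := by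
  classical
  have h1 : (A.filter fun a => f a ∈ B).card =
      ∑ b ∈ B, ((A.filter fun a => f a ∈ B).filter fun a => f a = b).card :=
    Finset.card_eq_sum_card_fiberwise (fun a ha => (Finset.mem_filter.1 ha).2)
  have h3 : (A.filter fun a => f a ∈ B).card ≤ A.card := Finset.card_filter_le _ _
  refine le_trans ?_ h3
  rw [h1]
  have h4 : B.card + S.card = ∑ b ∈ B, (1 + if b ∈ S then 1 else 0) := by
    rw [Finset.sum_add_distrib, Finset.sum_const, smul_eq_mul, mul_one, Finset.sum_ite_mem,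
      Finset.inter_eq_right.2 hS, Finset.sum_const, smul_eq_mul, mul_one]
  rw [h4]
  apply Finset.sum_le_sum
  intro b hb
  split_ifs with hbS
  · obtain ⟨a, ha, a', ha', hne, e1, e2⟩ := h2 b hbS
    have : ({a, a'} : Finset α) ⊆ (A.filter fun a => f a ∈ B).filter fun a => f a = b := by
      intro c hc
      rw [Finset.mem_insert, Finset.mem_singleton] at hc
      rw [Finset.mem_filter, Finset.mem_filter]
      rcases hc with rfl | rfl
      · exact ⟨⟨ha, e1 ▸ hb⟩, e1⟩
      · exact ⟨⟨ha', e2 ▸ hb⟩, e2⟩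
    have h5 := Finset.card_le_card this
    rw [Finset.card_pair hne] at h5
    omega
  · obtain ⟨a, ha, e1⟩ := hsurj b hb
    have : a ∈ (A.filter fun a => f a ∈ B).filter fun a => f a = b := by
      rw [Finset.mem_filter, Finset.mem_filter]
      exact ⟨⟨ha, e1 ▸ hb⟩, e1⟩
    have h5 := Finset.card_pos.2 ⟨a, this⟩
    omega

open Classical in
/-- right special factors -/
noncomputable def RS (x : ℕ → ℕ) (n : ℕ) : Finset (Fin n → ℕ) :=
  (F x n).filter fun w => ∃ i, word x n i = w ∧ ∃ k, Occ x n i k ∧ x (k + n) ≠ x (i + n)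

open Classical in
/-- left special factors -/
noncomputable def LS (x : ℕ → ℕ) (n : ℕ) : Finset (Fin n → ℕ) :=
  (F x n).filter fun w => ∃ i, word x n (i + 1) = w ∧ ∃ k, Occ x n (i + 1) (k + 1) ∧ x k ≠ x i

theorem card_RS (H : ∀ n, ∃ t, G x n t) (n : ℕ) :
    (F x n).card + (RS x n).card ≤ (F x (n + 1)).card := by
  classical
  refine card_add_le (F x (n + 1)) (F x n) (RS x n) (fun w j => w j.castSucc)
    (Finset.filter_subset _ _) ?_ ?_
  · intro b hb
    obtain ⟨i, rfl⟩ := exists_of_mem_F hb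
    exact ⟨word x (n + 1) i, mem_F H _ _, rfl⟩
  · intro b hb
    unfold RS at hb
    rw [Finset.mem_filter] at hb
    obtain ⟨_, i, rfl, k, h1, h2⟩ := hb
    refine ⟨word x (n + 1) k, mem_F H _ _, word x (n + 1) i, mem_F H _ _, ?_, word_eq h1, rfl⟩
    intro h3
    exact h2 (congrFun h3 (Fin.last n))

theorem card_LS (H : ∀ n, ∃ t, G x n t) (n : ℕ) :
    (F x n).card + (LS x n).card ≤ (F x (n + 1)).card := by
  classical
  have htail : ∀ i, (fun j : Fin n => word x (n + 1) i j.succ) = word x n (i + 1) := by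
    intro i
    funext j
    simp only [word, Fin.val_succ]
    congr 1
    ring
  refine card_add_le (F x (n + 1)) (F x n) (LS x n) (fun w j => w j.succ)
    (Finset.filter_subset _ _) ?_ ?_
  · intro b hb
    obtain ⟨i, rfl⟩ := exists_of_mem_F hb
    obtain ⟨q, h1, h2, h3⟩ := T_spec H n 1 i
    obtain ⟨k, rfl⟩ : ∃ k, q = k + 1 := ⟨q - 1, by omega⟩
    refine ⟨word x (n + 1) k, mem_F H _ _, ?_⟩
    show (fun j : Fin n => word x (n + 1) k j.succ) = _
    rw [htail]
    exact word_eq h3
  · intro b hb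
    unfold LS at hb
    rw [Finset.mem_filter] at hb
    obtain ⟨_, i, rfl, k, h1, h2⟩ := hb
    refine ⟨word x (n + 1) k, mem_F H _ _, word x (n + 1) i, mem_F H _ _, ?_, ?_, ?_⟩
    · intro h3
      exact h2 (congrFun h3 0)
    · show (fun j : Fin n => word x (n + 1) k j.succ) = _
      rw [htail]
      exact word_eq h1
    · show (fun j : Fin n => word x (n + 1) i j.succ) = _
      rw [htail]

/-- a good level between `N` and `2 N` -/
theorem exists_good {C N : ℕ} (hN : 1 ≤ N) (h : (F x (2 * N)).card ≤ C * N) :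
    ∃ M, N ≤ M ∧ M < 2 * N ∧ (F x (M + 1)).card ≤ (F x M).card + C := by
  by_contra hcon
  push Not at hcon
  have key : ∀ k, k ≤ N → (F x N).card + k * (C + 1) ≤ (F x (N + k)).card := by
    intro k
    induction k with
    | zero => intro _; simp
    | succ k ih =>
      intro hk
      have h1 := ih (by omega)
      have h2 := hcon (N + k) (by omega) (by omega)
      rw [← add_assoc N k 1]
      have h3 : (k + 1) * (C + 1) = k * (C + 1) + (C + 1) := by ring
      omega
  have h4 := key N le_rfl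
  rw [show N + N = 2 * N by ring] at h4
  have h5 : N * (C + 1) = C * N + N := by ring
  omega

theorem mem_RS_suffix (H : ∀ n, ∃ t, G x n t) {n M i : ℕ} (hM : M ≤ n)
    (h : ∃ k, Occ x n i k ∧ x (k + n) ≠ x (i + n)) : word x M (i + n - M) ∈ RS x M := by
  classical
  obtain ⟨k, h1, h2⟩ := h
  unfold RS
  rw [Finset.mem_filter]
  refine ⟨mem_F H _ _, i + n - M, rfl, k + n - M, ?_, ?_⟩
  · intro j hj
    have := h1 (n - M + j) (by omega)
    rw [show k + n - M + j = k + (n - M + j) by omega,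
      show i + n - M + j = i + (n - M + j) by omega]
    exact this
  · rw [show k + n - M + M = k + n by omega, show i + n - M + M = i + n by omega]
    exact h2

theorem mem_LS_prefixx (H : ∀ n, ∃ t, G x n t) {n M i : ℕ} (hM : M ≤ n)
    (h : ∃ k, Occ x n (i + 1) (k + 1) ∧ x k ≠ x i) : word x M (i + 1) ∈ LS x M := by
  classical
  obtain ⟨k, h1, h2⟩ := h
  unfold LS
  rw [Finset.mem_filter]
  exact ⟨mem_F H _ _, i, rfl, k, fun j hj => h1 j (by omega), h2⟩

/-- two jumps with the same pair of special words are far apart -/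
theorem two_jumps (H : ∀ n, ∃ t, G x n t)
    (hap : ¬ ∃ P N : ℕ, 0 < P ∧ ∀ i ≥ N, x (i + P) = x i)
    {L : ℕ} (hL : ∀ n, 1 ≤ n → n + T x n ≤ L * n) {M m m' i i' : ℕ}
    (hm : M + 1 ≤ m) (hmm : m < m') (h1 : word x M (i + 1) = word x M (i' + 1))
    (h2 : word x M (i + m - M) = word x M (i' + m' - M)) :
    2 * M + 1 < m + L * (m' - m + 1) := by
  by_contra hcon
  push Not at hcon
  apply hap
  refine ⟨m' - m, 0, by omega, fun j _ => ?_⟩
  refine periodic H (a := i + m - M) (l := 2 * M + 1 - m) (d := m' - m) ?_ ?_ j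
  · intro s hs
    have e1 := word_eq' h2 s (by omega)
    have e2 := word_eq' h1 (m' - 1 - M + s) (by omega)
    rw [show i + m - M + s + (m' - m) = i + 1 + (m' - 1 - M + s) by omega, e2, e1]
    congr 1
    omega
  · have := hL (m' - m + 1) (by omega)
    omega

/-- if `T` increases over an interval there is a jump in it -/
theorem exists_jump {a b : ℕ} (hab : a ≤ b) (h : T x a < T x b) :
    ∃ m, a ≤ m ∧ m < b ∧ T x m < T x (m + 1) := by
  by_contra hcon
  push Not at hcon
  have key : ∀ k, a + k ≤ b → T x (a + k) ≤ T x a := by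
    intro k
    induction k with
    | zero => intro _; simp
    | succ k ih =>
      intro hk
      exact (hcon (a + k) (by omega) (by omega)).trans (ih (by omega))
  have := key (b - a) (by omega)
  rw [show a + (b - a) = b by omega] at this
  omega

end Pool.Agent.H606R3.MH
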