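import Pool.Agent.H606R3.MH

set_option autoImplicit false

namespace Pool.Agent.H606R3.MH

open Filter Topology

variable {x : ℕ → ℕ}

theorem core (H : ∀ n, ∃ t, G x n t) (hap : ¬ ∃ P N : ℕ, 0 < P ∧ ∀ i ≥ N, x (i + P) = x i)
    {L : ℕ} (hL : ∀ n, 1 ≤ n → n + T x n ≤ L * n) {lam : ℝ}
    (hlim : Tendsto (fun n : ℕ => (T x n : ℝ) / n) atTop (𝓝 lam)) : False := by
  classical
  have hL1 : 1 ≤ L := by
    have := hL 1 le_rfl
    omega
  have hLR : (1 : ℝ) ≤ L := by exact_mod_cast hL1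
  -- the limit is positive
  have hlam : 0 < lam := by
    have h1 : ∀ᶠ n : ℕ in atTop, 1 / (2 * (L : ℝ)) ≤ (T x n : ℝ) / n := by
      filter_upwards [eventually_ge_atTop (4 * L)] with n hn
      have hn0 : 1 ≤ n := by omega
      have hnR : (0 : ℝ) < n := by exact_mod_cast hn0
      have h2 : (n : ℝ) < L * (T x n + 2) := by exact_mod_cast T_lower H hap hL n
      have h3 : (4 : ℝ) * L ≤ n := by exact_mod_cast hn
      rw [div_le_div_iff₀ (by positivity) hnR]
      nlinarith
    have h2 := ge_of_tendsto hlim h1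
    have : 0 < 1 / (2 * (L : ℝ)) := by positivity
    linarith
  obtain ⟨C, hC⟩ : ∃ C : ℕ, C = 2 * L := ⟨_, rfl⟩
  obtain ⟨K, hK⟩ : ∃ K : ℕ, K = C * C + 1 := ⟨_, rfl⟩
  have hK1 : 1 ≤ K := by omega
  have hKR : (1 : ℝ) ≤ K := by exact_mod_cast hK1
  have hLK : (0 : ℝ) < (L : ℝ) * K := by positivity
  obtain ⟨ε, hε⟩ : ∃ ε : ℝ, ε = lam / (100 * (L * K)) := ⟨_, rfl⟩
  have hεpos : 0 < ε := by rw [hε]; positivity
  obtain ⟨n0, hn0⟩ := (Metric.tendsto_atTop.1 hlim) ε hεpos
  -- a good level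
  obtain ⟨N, hN⟩ : ∃ N : ℕ, N = n0 + 16 * (L * K) + 16 := ⟨_, rfl⟩
  have hFN : (F x (2 * N)).card ≤ C * N := by
    have h1 := card_F (x := x) (2 * N)
    have h2 := hL (2 * N) (by omega)
    have h3 : L * (2 * N) = C * N := by rw [hC]; ring
    omega
  obtain ⟨M, hM1, hM2, hM3⟩ := exists_good (C := C) (N := N) (by omega) hFN
  have hRS : (RS x M).card ≤ C := by
    have := card_RS H M
    omega
  have hLS : (LS x M).card ≤ C := by
    have := card_LS H M
    omega
  obtain ⟨h, hh⟩ : ∃ h : ℕ, h = M / (8 * (L * K)) := ⟨_, rfl⟩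
  have hLKn : 0 < L * K := Nat.mul_pos hL1 hK1
  have hh1 : 8 * (L * K) * h ≤ M := by rw [hh]; exact Nat.mul_div_le _ _
  have hh2 : M < 8 * (L * K) * (h + 1) := by
    rw [hh]
    exact Nat.lt_mul_div_succ _ (by omega)
  have hM16 : 16 * (L * K) ≤ M := by omega
  have hh3 : M ≤ 16 * (L * K) * h := by
    have e1 : 8 * (L * K) * (h + 1) = 8 * (L * K) * h + 8 * (L * K) := by ring
    have e2 : 16 * (L * K) * h = 8 * (L * K) * h + 8 * (L * K) * h := by ring
    have hh4 : 1 ≤ h := by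
      by_contra h0
      have : h = 0 := by omega
      subst this
      omega
    have e3 : 8 * (L * K) ≤ 8 * (L * K) * h := Nat.le_mul_of_pos_right _ hh4
    omega
  have hKh : K * h ≤ L * K * h := by
    have : 1 * (K * h) ≤ L * (K * h) := Nat.mul_le_mul_right _ hL1
    rw [one_mul, ← mul_assoc] at this
    exact this
  have hKh8 : 8 * (K * h) ≤ M := by
    have e1 : 8 * (L * K) * h = 8 * (L * K * h) := by ring
    omega
  -- the jumps
  have hjump : ∀ k, k < K → ∃ m i, M + 1 + k * h ≤ m ∧ m < M + 1 + (k + 1) * h ∧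
      (∃ k, Occ x m i k ∧ x (k + m) ≠ x (i + m)) ∧
      (∃ k, Occ x m (i + 1) (k + 1) ∧ x k ≠ x i) := by
    intro k hk
    obtain ⟨a, ha⟩ : ∃ a : ℕ, a = M + 1 + k * h := ⟨_, rfl⟩
    have hb : M + 1 + (k + 1) * h = a + h := by rw [ha]; ring
    have hkh : (k + 1) * h ≤ K * h := Nat.mul_le_mul_right _ (by omega)
    have hkh' : (k + 1) * h = k * h + h := by ring
    have hT : T x a < T x (a + h) := by
      have b1 := hn0 a (by omega)
      have b2 := hn0 (a + h) (by omega)
      rw [Real.dist_eq, abs_lt] at b1 b2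
      have haR : (0 : ℝ) < a := by
        have : 0 < a := by omega
        exact_mod_cast this
      have hbR : (0 : ℝ) < ((a + h : ℕ) : ℝ) := by
        have : 0 < a + h := by omega
        exact_mod_cast this
      have c1 : (T x a : ℝ) < (lam + ε) * a := by
        rw [← div_lt_iff₀ haR]
        linarith [b1.2]
      have c2 : (lam - ε) * ((a + h : ℕ) : ℝ) < T x (a + h) := by
        rw [← lt_div_iff₀ hbR]
        linarith [b2.1]
      have c3 : ((a + h : ℕ) : ℝ) = a + h := by push_cast; ring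
      rw [c3] at c2
      have c4 : (a : ℝ) + (a + h) ≤ 4 * M := by
        have : a + (a + h) ≤ 4 * M := by omega
        exact_mod_cast this
      have c5 : (M : ℝ) ≤ 16 * (L * K) * h := by exact_mod_cast hh3
      have c6 : ε * (4 * M) < lam * h := by
        have hMR : (0 : ℝ) < M := by
          have : 0 < M := by omega
          exact_mod_cast this
        have d1 : lam * M ≤ 16 * (L * K) * (lam * h) := by nlinarith
        have d2 : ε * (4 * M) * (25 * (L * K)) = lam * M := by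
          rw [hε]
          field_simp
          ring
        have d3 : 0 < lam * M := by positivity
        nlinarith
      have c7 : ε * (a + (a + h)) ≤ ε * (4 * M) := mul_le_mul_of_nonneg_left c4 hεpos.le
      have : (T x a : ℝ) < T x (a + h) := by nlinarith
      exact_mod_cast this
    obtain ⟨m, hm1, hm2, hm3⟩ := exists_jump (a := a) (b := a + h) (by omega) hT
    obtain ⟨i, hi1, hi2⟩ := jump H hm3
    exact ⟨m, i, by omega, by omega, hi1, hi2⟩
  choose! m i hm1 hm2 hRSk hLSk using hjump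
  have hmem : ∀ k ∈ Finset.range K,
      (word x M (i k + 1), word x M (i k + m k - M)) ∈ (LS x M) ×ˢ (RS x M) := by
    intro k hk
    rw [Finset.mem_range] at hk
    have h1 := hm1 k hk
    have h2 : M ≤ m k := by omega
    rw [Finset.mem_product]
    exact ⟨mem_LS_prefixx H h2 (hLSk k hk), mem_RS_suffix H h2 (hRSk k hk)⟩
  have hcard : ((LS x M) ×ˢ (RS x M)).card < (Finset.range K).card := by
    rw [Finset.card_product, Finset.card_range]
    calc (LS x M).card * (RS x M).card ≤ C * C := Nat.mul_le_mul hLS hRS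
      _ < K := by omega
  obtain ⟨k, hk, k', hk', hne, heq⟩ := Finset.exists_ne_map_eq_of_card_lt_of_maps_to hcard hmem
  rw [Finset.mem_range] at hk hk'
  -- the final contradiction for `k < k'`
  have fin : ∀ k k', k < K → k' < K → k < k' →
      word x M (i k + 1) = word x M (i k' + 1) →
      word x M (i k + m k - M) = word x M (i k' + m k' - M) → False := by
    intro k k' hk hk' hlt e1 e2
    have a1 := hm1 k hk
    have a2 := hm2 k hk
    have a3 := hm1 k' hk'
    have a4 := hm2 k' hk'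
    have a5 : (k + 1) * h ≤ k' * h := Nat.mul_le_mul_right _ (by omega)
    have a6 : (k' + 1) * h ≤ K * h := Nat.mul_le_mul_right _ (by omega)
    have a7 : (k + 1) * h ≤ K * h := Nat.mul_le_mul_right _ (by omega)
    have hlt' : m k < m k' := by omega
    have key := two_jumps H hap hL (M := M) (m := m k) (m' := m k') (i := i k) (i' := i k')
      (by omega) hlt' e1 e2
    have a8 : m k' - m k + 1 ≤ K * h + 1 := by omega
    have a9 : L * (m k' - m k + 1) ≤ L * (K * h + 1) := Nat.mul_le_mul_left _ a8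
    have a10 : L * (K * h + 1) = L * K * h + L := by ring
    have a11 : 8 * (L * K) * h = 8 * (L * K * h) := by ring
    have a12 : L ≤ L * K := Nat.le_mul_of_pos_right _ hK1
    omega
  rw [Prod.mk.injEq] at heq
  rcases Nat.lt_or_gt_of_ne hne with h1 | h1
  · exact fin k k' hk hk' h1 heq.1 heq.2
  · exact fin k' k hk' hk h1 heq.1.symm heq.2.symm

theorem main (x : ℕ → ℕ)
    (hur : ∀ n : ℕ, ∃ m : ℕ, ∀ p i : ℕ, ∃ q : ℕ,
        p ≤ q ∧ q + n ≤ p + m ∧ ∀ j < n, x (q + j) = x (i + j))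
    (hap : ¬ ∃ P N : ℕ, 0 < P ∧ ∀ i ≥ N, x (i + P) = x i) :
    ¬ ∃ L : ℝ, Filter.Tendsto
        (fun n : ℕ =>
          (((sInf {m : ℕ | ∀ p i : ℕ, ∃ q : ℕ,
              p ≤ q ∧ q + n ≤ p + m ∧ ∀ j < n, x (q + j) = x (i + j)} : ℕ) : ℝ)) / (n : ℝ))
        Filter.atTop (nhds L) := by
  have H : ∀ n, ∃ t, G x n t := by
    intro n
    obtain ⟨m, hm⟩ := hur n
    refine ⟨m, fun p i => ?_⟩
    obtain ⟨q, h1, h2, h3⟩ := hm p i
    exact ⟨q, h1, by omega, h3⟩
  have hR : ∀ n, sInf {m : ℕ | ∀ p i : ℕ, ∃ q : ℕ,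
              p ≤ q ∧ q + n ≤ p + m ∧ ∀ j < n, x (q + j) = x (i + j)} = n + T x n := by
    intro n
    have hmem : n + T x n ∈ {m : ℕ | ∀ p i : ℕ, ∃ q : ℕ,
              p ≤ q ∧ q + n ≤ p + m ∧ ∀ j < n, x (q + j) = x (i + j)} := by
      intro p i
      obtain ⟨q, h1, h2, h3⟩ := T_spec H n p i
      exact ⟨q, h1, by omega, h3⟩
    apply le_antisymm
    · exact Nat.sInf_le hmem
    · refine le_csInf ⟨_, hmem⟩ ?_
      intro m hm
      have h1 : n ≤ m := by
        obtain ⟨q, h1, h2, _⟩ := hm 0 0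
        omega
      have h2 : G x n (m - n) := by
        intro p i
        obtain ⟨q, h1, h2, h3⟩ := hm p i
        exact ⟨q, h1, by omega, h3⟩
      have h3 := T_le h2
      omega
  rintro ⟨l, hl⟩
  simp only [hR] at hl
  -- boundedness
  obtain ⟨B, hB⟩ := hl.bddAbove_range
  obtain ⟨L, hL⟩ := exists_nat_ge B
  have hL' : ∀ n, 1 ≤ n → n + T x n ≤ L * n := by
    intro n hn
    have h1 : (((n + T x n : ℕ) : ℝ)) / (n : ℝ) ≤ B := hB ⟨n, rfl⟩
    have hnR : (0 : ℝ) < n := by exact_mod_cast hn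
    rw [div_le_iff₀ hnR] at h1
    have h2 : ((n + T x n : ℕ) : ℝ) ≤ L * n := h1.trans (mul_le_mul_of_nonneg_right hL hnR.le)
    exact_mod_cast h2
  refine core H hap hL' (lam := l - 1) ?_
  have h3 : Tendsto (fun n : ℕ => (((n + T x n : ℕ) : ℝ)) / (n : ℝ) - 1) atTop (𝓝 (l - 1)) :=
    hl.sub_const 1
  refine h3.congr' ?_
  filter_upwards [eventually_ge_atTop 1] with n hn
  have hnR : (n : ℝ) ≠ 0 := by
    have : (0 : ℝ) < n := by exact_mod_cast hn
    exact this.ne'
  push_cast
  field_simp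
  ring

end Pool.Agent.H606R3.MH
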